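import Mathlib
import Pool.Agent.H92.TD.Defs
import Pool.Agent.H92.TD.Claw2
import Pool.Agent.H92.TP.PDefs
import Pool.Agent.H92.TF.FDefs

/-!
MP_5aa732_co, project TK92: odd-hole-free graphs without induced fork + K_1 are 2-divisible.
-/

set_option autoImplicit false
set_option linter.unusedSectionVars false
set_option linter.unusedVariables false

namespace Pool.Agent.H92.TK

open SimpleGraph Finset Pool.Agent.H92.TD Pool.Agent.H92.TP Pool.Agent.H92.TF

/-- No induced fork plus isolated vertex (fork: claw `v; a, b, c` with pendant `d` at `c`; isolated vertex `k`). -/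
def ForkK1free {V : Type} (G : SimpleGraph V) : Prop :=
  ∀ v a b c d k : V, G.Adj v a → G.Adj v b → G.Adj v c → G.Adj c d → a ≠ b → b ≠ c → a ≠ c →
    ¬ G.Adj a b → ¬ G.Adj b c → ¬ G.Adj a c →
    d ≠ v → ¬ G.Adj d v → ¬ G.Adj d a → ¬ G.Adj d b →
    k ≠ v → k ≠ d → ¬ G.Adj k v → ¬ G.Adj k a → ¬ G.Adj k b → ¬ G.Adj k c → ¬ G.Adj k d → False

/-- `x` is different from and nonadjacent to `v` and nonadjacent to all vertices of `Y`. -/
def WW {V : Type} (G : SimpleGraph V) (v : V) (Y : Finset V) (x : V) : Prop :=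
  x ≠ v ∧ ¬ G.Adj v x ∧ ∀ y ∈ Y, ¬ G.Adj y x

end Pool.Agent.H92.TK
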