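import Mathlib
import Pool.Agent.H92.TD.Defs
import Pool.Agent.H92.TD.Claw2
import Pool.Agent.H92.TP.PDefs
import Pool.Agent.H92.TF.FDefs

/-!
Row TK_Q2.
`q2`: K an (m+1)-clique with Rem G K v, Y a nonempty stable set of neighbours of v.  Then some k ∈ K is not bad for v and nonadjacent to all of Y.
PROOF.  For y ∈ N(v) let K_y := K.filter (y ~ ·).  NESTED (n): y ≠ z in N(v), y ≁ z: if y ~ k, z ≁ k for some k ∈ K then K_z ⊆ K_y: otherwise k' ∈ K with z ~ k', y ≁ k'; k ≠ k', k ~ k' and
 v, y, k, k', z  is an induced C_5 (v~y, y~k, k~k', k'~z, z~v; v≁k, y≁k', k≁z, k'≁v, z≁y), `h.c5`.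
 Let y0 ∈ Y with |K_{y0}| maximal (`Finset.exists_max_image`); by (n) K_y ⊆ K_{y0} for all y ∈ Y (otherwise k ∈ K_y \\ K_{y0}, then K_{y0} ⊆ K_y, strictly larger).
 Among the z ∈ N(v) (Nb G v) with K_{y0} ⊆ K_z choose one with |K_z| maximal.  z ∉ K, so `not_complete` gives k ∈ K with z ≁ k; k ∉ K_z ⊇ K_{y0} ⊇ K_y for all y ∈ Y.
 k is not bad: let L be an m-clique of neighbours of v, k complete to L.  Every l ∈ L is adjacent to z: l ≠ z (l ~ k), and if l ≁ z then by (n) (l ~ k, z ≁ k) K_z ⊆ K_l, and k ∈ K_l \\ K_z, so |K_l| > |K_z|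
 and K_{y0} ⊆ K_l: contradiction to maximality.  So insert z L is an (m+1)-clique (`clique_insert`) of neighbours of v and insert v of it an (m+2)-clique: contradiction with `h.free`.
`sl`: colour the neighbours of v and the vertices of S true, the others false.  `h.bad` gives a monochromatic (m+1)-clique K.  (Same argument as in Pool/Agent/H92/TD/Claw2.lean and TP/Col.lean.)
 true: if K has a member s with S s: the other members are not in S (stable), so they are neighbours of v, K.erase s is an m-clique of neighbours of v, complete to s: BadFor G m v s, contradiction.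
   if not: K ⊆ N(v), insert v K is an (m+2)-clique.
 false: members of K are nonadjacent to v; v ∉ K (K has another member, adjacent to v, m + 1 ≥ 2); so Rem G K v and K meets S, whose members are true: contradiction.
-/

set_option autoImplicit false
set_option linter.unusedSectionVars false
set_option linter.unusedVariables false

namespace Pool.Agent.H92.TK

open SimpleGraph Finset Pool.Agent.H92.TD Pool.Agent.H92.TP Pool.Agent.H92.TF

theorem q2 {V : Type} [Fintype V] {G : SimpleGraph V} {m : ℕ} (h : MinCE G m) {v : V} {Y : Finset V}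
    (hYne : Y.Nonempty) (hY : ∀ y ∈ Y, G.Adj v y) (hYs : ∀ y ∈ Y, ∀ y' ∈ Y, ¬ G.Adj y y')
    {K : Finset V} (hK : G.IsNClique (m + 1) K) (hR : Rem G K v) :
    ∃ k ∈ K, ¬ BadFor G m v k ∧ ∀ y ∈ Y, ¬ G.Adj y k := by
  classical
  obtain ⟨y0, hy0, hmax0⟩ := Finset.exists_max_image Y
    (fun y => (K.filter (fun k => G.Adj y k)).card) hYne
  have hA : ∀ y ∈ Y, ∀ k ∈ K, ¬ G.Adj y0 k → ¬ G.Adj y k := by
    intro y hy
    rcases claw_nested h hK hR (hY y0 hy0) (hY y hy) (hYs y0 hy0 y hy) with h1 | h1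
    · exact h1
    · have hsub : K.filter (fun k => G.Adj y0 k) ⊆ K.filter (fun k => G.Adj y k) := by
        intro k hk
        rw [Finset.mem_filter] at hk
        refine Finset.mem_filter.2 ⟨hk.1, ?_⟩
        by_contra hyk
        exact h1 k hk.1 hyk hk.2
      have heq := Finset.eq_of_subset_of_card_le hsub (hmax0 y hy)
      intro k hk hk0 hyk
      have h2 : k ∈ K.filter (fun k => G.Adj y0 k) := by
        rw [heq]
        exact Finset.mem_filter.2 ⟨hk, hyk⟩
      exact hk0 (Finset.mem_filter.1 h2).2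
  obtain ⟨z, hz, hmax⟩ := Finset.exists_max_image
    ((Nb G v).filter (fun z => ∀ k ∈ K, G.Adj y0 k → G.Adj z k))
    (fun y => (K.filter (fun k => G.Adj y k)).card)
    ⟨y0, Finset.mem_filter.2 ⟨mem_Nb.2 (hY y0 hy0), fun _ _ h1 => h1⟩⟩
  rw [Finset.mem_filter, mem_Nb] at hz
  have hzK : z ∉ K := fun h1 => hR.2 z h1 hz.1
  obtain ⟨k, hk, hzk⟩ := not_complete h.free hK hzK
  refine ⟨k, hk, ?_, fun y hy => hA y hy k hk fun h1 => hzk (hz.2 k hk h1)⟩
  rintro ⟨L, hL, hvL, hkL⟩
  have key : ∀ l ∈ L, G.Adj z l := by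
    intro l hl
    by_contra hzl
    rcases claw_nested h hK hR hz.1 (hvL l hl) hzl with h1 | h1
    · exact h1 k hk hzk (hkL l hl).symm
    · have hzl' : ∀ k' ∈ K, G.Adj z k' → G.Adj l k' := by
        intro k' hk' hzk'
        by_contra hlk'
        exact h1 k' hk' hlk' hzk'
      have hsub : insert k (K.filter (fun p => G.Adj z p)) ⊆ K.filter (fun p => G.Adj l p) := by
        intro p hp
        rw [Finset.mem_insert] at hp
        rcases hp with rfl | hp
        · exact Finset.mem_filter.2 ⟨hk, (hkL l hl).symm⟩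
        · rw [Finset.mem_filter] at hp
          exact Finset.mem_filter.2 ⟨hp.1, hzl' p hp.1 hp.2⟩
      have hnot : k ∉ K.filter (fun p => G.Adj z p) := fun h2 => hzk (Finset.mem_filter.1 h2).2
      have h2 := Finset.card_le_card hsub
      rw [Finset.card_insert_of_notMem hnot] at h2
      have h3 : (K.filter (fun p => G.Adj l p)).card ≤ (K.filter (fun p => G.Adj z p)).card :=
        hmax l (Finset.mem_filter.2 ⟨mem_Nb.2 (hvL l hl),
          fun k' hk' h4 => hzl' k' hk' (hz.2 k' hk' h4)⟩)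
      omega
  have h1 : G.IsNClique (m + 1) (insert z L) := clique_insert hL key
  refine h.free _ (clique_insert h1 (v := v) ?_)
  intro x hx
  rcases Finset.mem_insert.1 hx with rfl | hx
  · exact hz.1
  · exact hvL x hx

theorem sl {V : Type} [Fintype V] {G : SimpleGraph V} {m : ℕ} (h : MinCE G m) {v : V} (S : V → Prop)
    (hS : ∀ x, S x → ¬ G.Adj v x ∧ ¬ BadFor G m v x) (hst : ∀ x y, S x → S y → ¬ G.Adj x y)
    (hit : ∀ K : Finset V, G.IsNClique (m + 1) K → Rem G K v → ∃ k ∈ K, S k) : False := by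
  classical
  have h1 := h.one
  obtain ⟨b', K, hK, hb'⟩ := h.bad (fun x => decide (G.Adj v x ∨ S x))
  cases b' with
  | true =>
    have hb : ∀ x ∈ K, G.Adj v x ∨ S x := fun x hx => of_decide_eq_true (hb' x hx)
    by_cases hs : ∃ s ∈ K, S s
    · obtain ⟨s, hsK, hSs⟩ := hs
      refine (hS s hSs).2 ⟨K.erase s, ?_, ?_, ?_⟩
      · refine ⟨hK.1.subset (by exact_mod_cast Finset.erase_subset _ _), ?_⟩
        rw [Finset.card_erase_of_mem hsK, hK.2]
        rfl
      · intro l hl
        rw [Finset.mem_erase] at hl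
        rcases hb l hl.2 with h2 | h2
        · exact h2
        · exact absurd (hK.1 hsK hl.2 (Ne.symm hl.1)) (hst s l hSs h2)
      · intro l hl
        rw [Finset.mem_erase] at hl
        exact hK.1 hsK hl.2 (Ne.symm hl.1)
    · refine h.free _ (clique_insert hK (v := v) ?_)
      intro k hk
      rcases hb k hk with h2 | h2
      · exact h2
      · exact absurd ⟨k, hk, h2⟩ hs
  | false =>
    have hb : ∀ x ∈ K, ¬ (G.Adj v x ∨ S x) := fun x hx => of_decide_eq_false (hb' x hx)
    have hvK : v ∉ K := by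
      intro hvK
      have hcard : 1 < K.card := by rw [hK.2]; omega
      obtain ⟨a, ha, hav⟩ := Finset.exists_mem_ne hcard v
      exact hb a ha (Or.inl (hK.1 hvK ha (Ne.symm hav)))
    obtain ⟨k, hk, hkS⟩ := hit K hK ⟨hvK, fun x hx h2 => hb x hx (Or.inl h2)⟩
    exact hb k hk (Or.inr hkS)

end Pool.Agent.H92.TK
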