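import Mathlib
import Pool.Agent.H92.TD.Defs
import Pool.Agent.H92.TD.Claw2
import Pool.Agent.H92.TP.PDefs
import Pool.Agent.H92.TF.FDefs
import Pool.Agent.H92.TK.KDefs

/-!
Row TK_Str1.  v, Y a stable set of neighbours of v, |Y| ≥ 3, |Y| maximal over all vertices (hmax).  WW x: x anticomplete to v and Y.  For a vertex p let j := number of neighbours of p in Y.
Forks are written (center; leaf, leaf, leaf - end) + isolated vertex, i.e. arguments v a b c d k of ForkK1free with c ~ d.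
`str_M`: p ≠ v, v ≁ p, p not in WW, x ~ u in WW, p ~ x ⇒ p ~ u.
 PROOF.  p has a neighbour in Y, so j ≥ 1.  Suppose p ≁ u.
 j = |Y| (p adjacent to all of Y): insert x Y is a stable set of neighbours of p (x ∉ Y as v ≁ x) of size |Y| + 1: contradiction to hmax.
 So p ≁ y3 for some y3 ∈ Y.  If p has two neighbours y1 ≠ y2 in Y:  (p; y1, y2, x - u) + y3.   [u ≠ p, u ≁ p, y1, y2;  y3 ≁ p, y1, y2, x, u; y3 ≠ p since p ≁ v, v ~ y3.]
 If p has exactly one neighbour y1: |Y| ≥ 3 gives y2 ≠ y3 in Y, different from y1, both nonadjacent to p:  (v; y2, y3, y1 - p) + u.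
`str_N1`: v ~ p, p ~ x, x, u ∈ WW, x ~ u, p ≁ u ⇒ p has at most one neighbour in Y.
 PROOF.  Otherwise y1 ≠ y2 ∈ Y neighbours of p.  p adjacent to all of Y: insert x Y contradicts hmax.  So y3 ∈ Y, p ≁ y3, and  (p; y1, y2, x - u) + y3.  (p ∉ Y because p ~ y1 and Y is stable.)
`str_N2`: v ~ p, p has at most one neighbour in Y, p ~ x, p ≁ u, x, u ∈ WW, x ≠ u ⇒ x ~ u.
 PROOF.  p ∉ Y (p ~ x, x ∈ WW).  |Y| ≥ 3, so there are y2 ≠ y3 in Y nonadjacent to p.  If x ≁ u:  (v; y2, y3, p - x) + u.   [x ≁ v, y2, y3; u ≁ v, y2, y3, p, x.]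
-/

set_option autoImplicit false
set_option linter.unusedSectionVars false
set_option linter.unusedVariables false

namespace Pool.Agent.H92.TK

open SimpleGraph Finset Pool.Agent.H92.TD Pool.Agent.H92.TP Pool.Agent.H92.TF

theorem str1_two {V : Type} {G : SimpleGraph V} {Y : Finset V} (h3 : 3 ≤ Y.card) {p : V}
    (hone : ∀ y ∈ Y, ∀ y' ∈ Y, G.Adj p y → G.Adj p y' → y = y') :
    ∃ y2 ∈ Y, ∃ y3 ∈ Y, y2 ≠ y3 ∧ ¬ G.Adj p y2 ∧ ¬ G.Adj p y3 := by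
  classical
  have h1 : (Y.filter (fun y => G.Adj p y)).card ≤ 1 := by
    rw [Finset.card_le_one]
    intro a ha b hb
    rw [Finset.mem_filter] at ha hb
    exact hone a ha.1 b hb.1 ha.2 hb.2
  have h2 := Finset.card_filter_add_card_filter_not (s := Y) (fun y => G.Adj p y)
  have h4 : 1 < (Y.filter (fun y => ¬ G.Adj p y)).card := by omega
  obtain ⟨a, ha, b, hb, hab⟩ := Finset.one_lt_card.mp h4
  rw [Finset.mem_filter] at ha hb
  exact ⟨a, ha.1, b, hb.1, hab, ha.2, hb.2⟩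

theorem str1_non {V : Type} [Fintype V] {G : SimpleGraph V} {v : V} {Y : Finset V}
    (hY : ∀ y ∈ Y, G.Adj v y) (hYs : ∀ y ∈ Y, ∀ y' ∈ Y, ¬ G.Adj y y')
    (hmax : ∀ (w : V) (Z : Finset V), (∀ z ∈ Z, G.Adj w z) → (∀ z ∈ Z, ∀ z' ∈ Z, ¬ G.Adj z z') →
      Z.card ≤ Y.card)
    {p x : V} (hx : WW G v Y x) (hpx : G.Adj p x) : ∃ y3 ∈ Y, ¬ G.Adj p y3 := by
  classical
  by_contra hcon
  push Not at hcon
  have hxY : x ∉ Y := fun h => hx.2.1 (hY x h)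
  have h1 := hmax p (insert x Y) (by
    intro z hz
    rcases Finset.mem_insert.mp hz with rfl | hz
    · exact hpx
    · exact hcon z hz) (by
    intro z hz z' hz'
    rcases Finset.mem_insert.mp hz with e | h1
    · rw [e]
      rcases Finset.mem_insert.mp hz' with e' | h2
      · rw [e']
        exact G.loopless.irrefl _
      · exact fun h => hx.2.2 z' h2 h.symm
    · rcases Finset.mem_insert.mp hz' with e' | h2
      · rw [e']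
        exact hx.2.2 z h1
      · exact hYs z h1 z' h2)
  rw [Finset.card_insert_of_notMem hxY] at h1
  omega

theorem str_M {V : Type} [Fintype V] {G : SimpleGraph V} (hf : ForkK1free G) {v : V} {Y : Finset V}
    (hY : ∀ y ∈ Y, G.Adj v y) (hYs : ∀ y ∈ Y, ∀ y' ∈ Y, ¬ G.Adj y y') (h3 : 3 ≤ Y.card)
    (hmax : ∀ (w : V) (Z : Finset V), (∀ z ∈ Z, G.Adj w z) → (∀ z ∈ Z, ∀ z' ∈ Z, ¬ G.Adj z z') →
      Z.card ≤ Y.card)
    {p x u : V} (hpv : p ≠ v) (hvp : ¬ G.Adj v p) (hp : ¬ WW G v Y p) (hx : WW G v Y x)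
    (hu : WW G v Y u) (hxu : G.Adj x u) (hpx : G.Adj p x) : G.Adj p u := by
  by_contra hpu
  obtain ⟨y1, hy1, hy1p⟩ : ∃ y ∈ Y, G.Adj y p := by
    by_contra hcon
    push Not at hcon
    exact hp ⟨hpv, hvp, hcon⟩
  obtain ⟨y3, hy3, hpy3⟩ := str1_non hY hYs hmax hx hpx
  have hup : u ≠ p := fun h => hp (h ▸ hu)
  have hne : ∀ y ∈ Y, y ≠ x := fun y hy h => hx.2.1 (h ▸ hY y hy)
  have hneu : ∀ y ∈ Y, y ≠ u := fun y hy h => hu.2.1 (h ▸ hY y hy)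
  by_cases hone : ∀ y ∈ Y, ∀ y' ∈ Y, G.Adj p y → G.Adj p y' → y = y'
  · obtain ⟨y2, hy2, y4, hy4, h24, hp2, hp4⟩ := str1_two h3 hone
    have h21 : y2 ≠ y1 := fun h => hp2 (h ▸ hy1p.symm)
    have h41 : y4 ≠ y1 := fun h => hp4 (h ▸ hy1p.symm)
    exact hf v y2 y4 y1 p u (hY y2 hy2) (hY y4 hy4) (hY y1 hy1) hy1p h24 h41 h21
      (hYs y2 hy2 y4 hy4) (hYs y4 hy4 y1 hy1) (hYs y2 hy2 y1 hy1) hpv (fun h => hvp h.symm) hp2 hp4
      hu.1 hup (fun h => hu.2.1 h.symm) (fun h => hu.2.2 y2 hy2 h.symm)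
      (fun h => hu.2.2 y4 hy4 h.symm) (fun h => hu.2.2 y1 hy1 h.symm) (fun h => hpu h.symm)
  · push Not at hone
    obtain ⟨a, ha, b, hb, hpa, hpb, hab⟩ := hone
    have h3p : y3 ≠ p := fun h => hvp (h ▸ hY y3 hy3)
    exact hf p a b x u y3 hpa hpb hpx hxu hab (hne b hb) (hne a ha) (hYs a ha b hb)
      (hx.2.2 b hb) (hx.2.2 a ha) hup (fun h => hpu h.symm) (fun h => hu.2.2 a ha h.symm)
      (fun h => hu.2.2 b hb h.symm) h3p (hneu y3 hy3) (fun h => hpy3 h.symm)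
      (hYs y3 hy3 a ha) (hYs y3 hy3 b hb) (hx.2.2 y3 hy3) (hu.2.2 y3 hy3)

theorem str_N1 {V : Type} [Fintype V] {G : SimpleGraph V} (hf : ForkK1free G) {v : V} {Y : Finset V}
    (hY : ∀ y ∈ Y, G.Adj v y) (hYs : ∀ y ∈ Y, ∀ y' ∈ Y, ¬ G.Adj y y') (h3 : 3 ≤ Y.card)
    (hmax : ∀ (w : V) (Z : Finset V), (∀ z ∈ Z, G.Adj w z) → (∀ z ∈ Z, ∀ z' ∈ Z, ¬ G.Adj z z') →
      Z.card ≤ Y.card)
    {p x u : V} (hvp : G.Adj v p) (hx : WW G v Y x)
    (hu : WW G v Y u) (hxu : G.Adj x u) (hpx : G.Adj p x) (hpu : ¬ G.Adj p u) :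
    ∀ y ∈ Y, ∀ y' ∈ Y, G.Adj p y → G.Adj p y' → y = y' := by
  intro a ha b hb hpa hpb
  by_contra hab
  obtain ⟨y3, hy3, hpy3⟩ := str1_non hY hYs hmax hx hpx
  have hup : u ≠ p := fun h => hu.2.1 (h ▸ hvp)
  have hne : ∀ y ∈ Y, y ≠ x := fun y hy h => hx.2.1 (h ▸ hY y hy)
  have hneu : ∀ y ∈ Y, y ≠ u := fun y hy h => hu.2.1 (h ▸ hY y hy)
  have h3p : y3 ≠ p := fun h => hYs y3 hy3 a ha (h ▸ hpa)
  exact hf p a b x u y3 hpa hpb hpx hxu hab (hne b hb) (hne a ha) (hYs a ha b hb)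
    (hx.2.2 b hb) (hx.2.2 a ha) hup (fun h => hpu h.symm) (fun h => hu.2.2 a ha h.symm)
    (fun h => hu.2.2 b hb h.symm) h3p (hneu y3 hy3) (fun h => hpy3 h.symm)
    (hYs y3 hy3 a ha) (hYs y3 hy3 b hb) (hx.2.2 y3 hy3) (hu.2.2 y3 hy3)

theorem str_N2 {V : Type} [Fintype V] {G : SimpleGraph V} (hf : ForkK1free G) {v : V} {Y : Finset V}
    (hY : ∀ y ∈ Y, G.Adj v y) (hYs : ∀ y ∈ Y, ∀ y' ∈ Y, ¬ G.Adj y y') (h3 : 3 ≤ Y.card)
    {p x u : V} (hvp : G.Adj v p) (hone : ∀ y ∈ Y, ∀ y' ∈ Y, G.Adj p y → G.Adj p y' → y = y')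
    (hx : WW G v Y x) (hu : WW G v Y u) (hxu : x ≠ u) (hpx : G.Adj p x) (hpu : ¬ G.Adj p u) :
    G.Adj x u := by
  by_contra hcon
  obtain ⟨y2, hy2, y3, hy3, h23, hp2, hp3⟩ := str1_two h3 hone
  have hnp : ∀ y ∈ Y, y ≠ p := fun y hy h => hx.2.2 y hy (h ▸ hpx)
  exact hf v y2 y3 p x u (hY y2 hy2) (hY y3 hy3) hvp hpx h23 (hnp y3 hy3) (hnp y2 hy2)
    (hYs y2 hy2 y3 hy3) (fun h => hp3 h.symm) (fun h => hp2 h.symm) hx.1 (fun h => hx.2.1 h.symm)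
    (fun h => hx.2.2 y2 hy2 h.symm) (fun h => hx.2.2 y3 hy3 h.symm) hu.1 (Ne.symm hxu)
    (fun h => hu.2.1 h.symm) (fun h => hu.2.2 y2 hy2 h.symm) (fun h => hu.2.2 y3 hy3 h.symm)
    (fun h => hpu h.symm) (fun h => hcon h.symm)

end Pool.Agent.H92.TK
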