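import Mathlib
import Pool.Agent.H92.TD.Defs
import Pool.Agent.H92.TD.Claw2
import Pool.Agent.H92.TP.PDefs
import Pool.Agent.H92.TF.FDefs
import Pool.Agent.H92.TK.KDefs
import Pool.Agent.H92.TK.Str1

/-!
Row TK_Str2.  `w_dich`: the set W of all x with WW G v Y x is stable or a clique.
PROOF.  Suppose there are x0 ~ x1 in W and z0 ≠ z1 in W nonadjacent.  Call D ⊆ W closed if there is no edge between D and W \\ D, co-closed if D is complete to W \\ D.
FACTS about a vertex p ∉ W (p arbitrary):
 (P1) p = v or p ∈ Y: anticomplete to W.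
 (P2) p ≠ v, v ≁ p: p is not mixed on an edge of W (`str_M`: x ~ u in W, p ~ x ⇒ p ~ u).
 (P3) v ~ p: either p is not mixed on an edge of W, or p has at most one neighbour in Y (`str_N1`).  If p has at most one neighbour in Y then W ∩ N(p) is complete to W \\ N(p) (`str_N2`), i.e. W ∩ N(p) is co-closed.
STEP 1: no closed D with ∅ ≠ D ≠ W contains x0.  Suppose there is one; let D be of least cardinality among the closed sets that contain x0 (`Finset.exists_min_image`); D ≠ W.  x1 ∈ D.  D is homogeneous: let p ∉ D, suppose p has a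
 neighbour and a nonneighbour in D.  p ∉ W (D closed).  Then there are x ~ u in D with p ~ x, p ≁ u (otherwise D ∩ N(p) and D \\ N(p) are closed and the one which contains x0 is smaller).  So by (P1)-(P3) v ~ p and W ∩ N(p) is complete to
 W \\ N(p).  Take q ∈ W \\ D: q ~ p or not; q ~ p: q is adjacent to u ∈ D; q ≁ p: q is adjacent to x ∈ D.  Contradiction with D closed.  So D is homogeneous, |D| ≥ 2, D = univ by `hp`; but v ∉ D.
STEP 2: so W is connected in the sense: every p ∉ W which has a neighbour and a nonneighbour in W is mixed on an edge of W (otherwise W ∩ N(p) and W \\ N(p) are closed, both ≠ W, nonempty, one contains x0).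
 Hence by (P1)-(P3) such a p satisfies v ~ p and W ∩ N(p) is co-closed; all other p ∉ W are complete or anticomplete to W.
STEP 3: let F be of least cardinality among the co-closed subsets of W containing z0 (W itself is one).  z1 ∈ F since z0 ≁ z1.  F is homogeneous: p ∈ W \\ F is complete to F.  p ∉ W: if p has a neighbour and a nonneighbour in F then
 W ∩ N(p) is co-closed, and F ∩ N(p), F \\ N(p) are co-closed (F ∩ N(p) is complete to W \\ F and to F \\ N(p); the same for F \\ N(p)), and the one which contains z0 is smaller: contradiction.  |F| ≥ 2, so F = univ; but v ∉ F.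
-/

set_option autoImplicit false
set_option linter.unusedSectionVars false
set_option linter.unusedVariables false

namespace Pool.Agent.H92.TK

open SimpleGraph Finset Pool.Agent.H92.TD Pool.Agent.H92.TP Pool.Agent.H92.TF

theorem str2_closed {V : Type} [Fintype V] {G : SimpleGraph V} (hp : PrimeG G) {W : Finset V} {v : V}
    (hv : v ∉ W)
    (hW : ∀ p, p ∉ W → (∀ x ∈ W, ∀ u ∈ W, G.Adj x u → G.Adj p x → G.Adj p u) ∨
      (∀ x ∈ W, ∀ u ∈ W, G.Adj p x → ¬ G.Adj p u → G.Adj x u))
    {x0 x1 : V} (h1 : x1 ∈ W) (h01 : G.Adj x0 x1) (n : ℕ) :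
    ∀ D : Finset V, D.card = n → D ⊆ W → (∀ x ∈ D, ∀ y ∈ W, y ∉ D → ¬ G.Adj x y) → x0 ∈ D → D = W := by
  classical
  induction n using Nat.strong_induction_on with
  | _ n ih =>
    intro D hcard hD hc hx0
    by_contra hne
    have hsm : ∀ D' : Finset V, D' ⊆ D → D'.card < D.card →
        (∀ x ∈ D', ∀ y ∈ W, y ∉ D' → ¬ G.Adj x y) → x0 ∉ D' := by
      intro D' hs hl hc' hx
      have h := ih D'.card (by omega) D' rfl (hs.trans hD) hc' hx
      have h2 := Finset.card_le_card hD
      rw [h] at hl
      omega
    have hx1 : x1 ∈ D := by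
      by_contra h
      exact hc x0 hx0 x1 h1 h h01
    obtain ⟨q, hqW, hqD⟩ : ∃ q ∈ W, q ∉ D := by
      by_contra hcon
      push Not at hcon
      exact hne (Finset.Subset.antisymm hD hcon)
    have huniv : D = Finset.univ := by
      refine hp D ?_ (Finset.one_lt_card.mpr ⟨x0, hx0, x1, hx1, h01.ne⟩)
      intro p hpD
      by_cases hpW : p ∈ W
      · right
        intro x hx h
        exact hc x hx p hpW hpD h.symm
      · by_contra hcon
        push Not at hcon
        obtain ⟨⟨b, hb, hpb⟩, ⟨a, ha, hpa⟩⟩ := hcon
        rcases hW p hpW with h | h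
        · by_cases hpx0 : G.Adj p x0
          · refine hsm (D.filter (fun x => G.Adj p x)) (Finset.filter_subset _ _) ?_ ?_ ?_
            · apply Finset.card_lt_card
              rw [Finset.ssubset_iff_of_subset (Finset.filter_subset _ _)]
              exact ⟨b, hb, by simp [hpb]⟩
            · intro x hx y hy hyn hxy
              rw [Finset.mem_filter] at hx hyn
              by_cases hyD : y ∈ D
              · exact hyn ⟨hyD, h x (hD hx.1) y hy hxy hx.2⟩
              · exact hc x hx.1 y hy hyD hxy
            · rw [Finset.mem_filter]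
              exact ⟨hx0, hpx0⟩
          · refine hsm (D.filter (fun x => ¬ G.Adj p x)) (Finset.filter_subset _ _) ?_ ?_ ?_
            · apply Finset.card_lt_card
              rw [Finset.ssubset_iff_of_subset (Finset.filter_subset _ _)]
              exact ⟨a, ha, by simp [hpa]⟩
            · intro x hx y hy hyn hxy
              rw [Finset.mem_filter] at hx hyn
              by_cases hyD : y ∈ D
              · exact hyn ⟨hyD, fun hpy => hx.2 (h y hy x (hD hx.1) hxy.symm hpy)⟩
              · exact hc x hx.1 y hy hyD hxy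
            · rw [Finset.mem_filter]
              exact ⟨hx0, hpx0⟩
        · by_cases hpq : G.Adj p q
          · exact hc b hb q hqW hqD (h q hqW b (hD hb) hpq hpb).symm
          · exact hc a ha q hqW hqD (h a (hD ha) q hqW hpa hpq)
    apply hv
    apply hD
    rw [huniv]
    exact Finset.mem_univ _

theorem str2_coclosed {V : Type} [Fintype V] {G : SimpleGraph V} (hp : PrimeG G) {W : Finset V} {v : V}
    (hv : v ∉ W)
    (hW : ∀ p, p ∉ W → (∀ x ∈ W, ∀ u ∈ W, G.Adj x u → G.Adj p x → G.Adj p u) ∨
      (∀ x ∈ W, ∀ u ∈ W, G.Adj p x → ¬ G.Adj p u → G.Adj x u))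
    {x0 x1 : V} (h0 : x0 ∈ W) (h1 : x1 ∈ W) (h01 : G.Adj x0 x1)
    {z0 z1 : V} (hz1 : z1 ∈ W) (hz : z0 ≠ z1) (hz01 : ¬ G.Adj z0 z1) (n : ℕ) :
    ∀ F : Finset V, F.card = n → F ⊆ W → (∀ x ∈ F, ∀ y ∈ W, y ∉ F → G.Adj x y) → z0 ∉ F := by
  classical
  induction n using Nat.strong_induction_on with
  | _ n ih =>
    intro F hcard hF hc hz0
    have hsm : ∀ D' : Finset V, D' ⊆ F → D'.card < F.card →
        (∀ x ∈ D', ∀ y ∈ W, y ∉ D' → G.Adj x y) → z0 ∉ D' := by
      intro D' hs hl hc'
      exact ih D'.card (by omega) D' rfl (hs.trans hF) hc'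
    have hz1F : z1 ∈ F := by
      by_contra h
      exact hz01 (hc z0 hz0 z1 hz1 h)
    have huniv : F = Finset.univ := by
      refine hp F ?_ (Finset.one_lt_card.mpr ⟨z0, hz0, z1, hz1F, hz⟩)
      intro p hpF
      by_cases hpW : p ∈ W
      · left
        intro x hx
        exact (hc x hx p hpW hpF).symm
      · by_contra hcon
        push Not at hcon
        obtain ⟨⟨b, hb, hpb⟩, ⟨a, ha, hpa⟩⟩ := hcon
        rcases hW p hpW with h | h
        · by_cases hpx0 : G.Adj p x0
          · have h2 := str2_closed hp hv hW h1 h01 _ (W.filter (fun x => G.Adj p x)) rfl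
              (Finset.filter_subset _ _) (by
                intro x hx y hy hyn hxy
                rw [Finset.mem_filter] at hx hyn
                exact hyn ⟨hy, h x hx.1 y hy hxy hx.2⟩) (by
                rw [Finset.mem_filter]
                exact ⟨h0, hpx0⟩)
            have h3 : b ∈ W.filter (fun x => G.Adj p x) := by
              rw [h2]
              exact hF hb
            rw [Finset.mem_filter] at h3
            exact hpb h3.2
          · have h2 := str2_closed hp hv hW h1 h01 _ (W.filter (fun x => ¬ G.Adj p x)) rfl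
              (Finset.filter_subset _ _) (by
                intro x hx y hy hyn hxy
                rw [Finset.mem_filter] at hx hyn
                exact hyn ⟨hy, fun hpy => hx.2 (h y hy x hx.1 hxy.symm hpy)⟩) (by
                rw [Finset.mem_filter]
                exact ⟨h0, hpx0⟩)
            have h3 : a ∈ W.filter (fun x => ¬ G.Adj p x) := by
              rw [h2]
              exact hF ha
            rw [Finset.mem_filter] at h3
            exact h3.2 hpa
        · by_cases hpz0 : G.Adj p z0
          · refine hsm (F.filter (fun x => G.Adj p x)) (Finset.filter_subset _ _) ?_ ?_ ?_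
            · apply Finset.card_lt_card
              rw [Finset.ssubset_iff_of_subset (Finset.filter_subset _ _)]
              exact ⟨b, hb, by simp [hpb]⟩
            · intro x hx y hy hyn
              rw [Finset.mem_filter] at hx hyn
              by_cases hyF : y ∈ F
              · exact h x (hF hx.1) y hy hx.2 (fun hpy => hyn ⟨hyF, hpy⟩)
              · exact hc x hx.1 y hy hyF
            · rw [Finset.mem_filter]
              exact ⟨hz0, hpz0⟩
          · refine hsm (F.filter (fun x => ¬ G.Adj p x)) (Finset.filter_subset _ _) ?_ ?_ ?_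
            · apply Finset.card_lt_card
              rw [Finset.ssubset_iff_of_subset (Finset.filter_subset _ _)]
              exact ⟨a, ha, by simp [hpa]⟩
            · intro x hx y hy hyn
              rw [Finset.mem_filter] at hx hyn
              by_cases hyF : y ∈ F
              · have hpy : G.Adj p y := by
                  by_contra hpy
                  exact hyn ⟨hyF, hpy⟩
                exact (h y hy x (hF hx.1) hpy hx.2).symm
              · exact hc x hx.1 y hy hyF
            · rw [Finset.mem_filter]
              exact ⟨hz0, hpz0⟩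
    apply hv
    apply hF
    rw [huniv]
    exact Finset.mem_univ _

theorem w_dich {V : Type} [Fintype V] {G : SimpleGraph V} (hp : PrimeG G) (hf : ForkK1free G) {v : V}
    {Y : Finset V} (hY : ∀ y ∈ Y, G.Adj v y) (hYs : ∀ y ∈ Y, ∀ y' ∈ Y, ¬ G.Adj y y')
    (h3 : 3 ≤ Y.card)
    (hmax : ∀ (w : V) (Z : Finset V), (∀ z ∈ Z, G.Adj w z) → (∀ z ∈ Z, ∀ z' ∈ Z, ¬ G.Adj z z') →
      Z.card ≤ Y.card) :
    (∀ x y, WW G v Y x → WW G v Y y → ¬ G.Adj x y) ∨
      (∀ x y, WW G v Y x → WW G v Y y → x ≠ y → G.Adj x y) := by
  classical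
  set W : Finset V := Finset.univ.filter (fun x => WW G v Y x) with hWdef
  have hmem : ∀ x, x ∈ W ↔ WW G v Y x := by
    intro x
    simp [hWdef]
  have hvW : v ∉ W := by
    rw [hmem]
    exact fun h => h.1 rfl
  have hW : ∀ p, p ∉ W → (∀ x ∈ W, ∀ u ∈ W, G.Adj x u → G.Adj p x → G.Adj p u) ∨
      (∀ x ∈ W, ∀ u ∈ W, G.Adj p x → ¬ G.Adj p u → G.Adj x u) := by
    intro p hpW
    rw [hmem] at hpW
    by_cases hpv : p = v
    · left
      intro x hx u hu hxu hpx
      rw [hmem] at hx
      exact absurd (hpv ▸ hpx) hx.2.1
    · by_cases hvp : G.Adj v p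
      · by_cases ha : ∀ x ∈ W, ∀ u ∈ W, G.Adj x u → G.Adj p x → G.Adj p u
        · exact Or.inl ha
        · right
          push Not at ha
          obtain ⟨x, hx, u, hu, hxu, hpx, hpu⟩ := ha
          rw [hmem] at hx hu
          have hone := str_N1 hf hY hYs h3 hmax hvp hx hu hxu hpx hpu
          intro x' hx' u' hu' hpx' hpu'
          rw [hmem] at hx' hu'
          exact str_N2 hf hY hYs h3 hvp hone hx' hu' (fun h => hpu' (h ▸ hpx')) hpx' hpu'
      · left
        intro x hx u hu hxu hpx
        rw [hmem] at hx hu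
        exact str_M hf hY hYs h3 hmax hpv hvp hpW hx hu hxu hpx
  by_contra hcon
  push Not at hcon
  obtain ⟨⟨x0, x1, hx0, hx1, h01⟩, ⟨z0, z1, hz0, hz1, hz, hz01⟩⟩ := hcon
  rw [← hmem] at hx0 hx1 hz0 hz1
  exact str2_coclosed hp hvW hW hx0 hx1 h01 hz1 hz hz01 _ W rfl (Finset.Subset.refl _)
    (fun x _ y hy hyn => absurd hy hyn) hz0

end Pool.Agent.H92.TK
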