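import Mathlib
import Pool.Agent.H92.TD.Defs
import Pool.Agent.H92.TD.Claw2
import Pool.Agent.H92.TP.PDefs
import Pool.Agent.H92.TF.FDefs
import Pool.Agent.H92.TK.KDefs
import Pool.Agent.H92.TK.Q2
import Pool.Agent.H92.TK.Str1
import Pool.Agent.H92.TK.Str2

/-!
Row TK_Fin.  A minimal counterexample without fork + K_1 whose homogeneous sets are trivial is claw-free.
PROOF.  Suppose there is a claw.  Consider all pairs (w, Z), Z a stable set of neighbours of w; choose one, (v, Y), with |Y| maximal (finitely many pairs: `Finset.exists_max_image` on univ ×ˢ univ filtered, or `Nat.findGreatest`); |Y| ≥ 3 by the claw.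
`w_dich` : W (= all x with WW G v Y x) is stable or a clique.
STABLE: `sl` with S x := WW G v Y x ∧ ¬ BadFor G m v x; hit: `q2` gives k ∈ K not bad, nonadjacent to Y; WW G v Y k because Rem G K v (k ≠ v as v ∉ K; v ≁ k).
CLIQUE: `exists_remote h v` gives K0, `q2` gives e ∈ K0, not bad, WW G v Y e.  `sl` with S x := x = e.  hit: let K be an (m+1)-clique with Rem G K v.  `q2` gives k ∈ K with WW G v Y k.  Suppose e ∉ K.  e is adjacent to all of K:
 q ∈ K with WW: q ~ e (clique, q ≠ e).  q ∈ K not in WW: q ≠ k, q ~ k; if k = e fine (then e ∈ K anyway); k ≠ e, k ~ e (clique), so `str_M` (p := q, x := k, u := e; q ≠ v, v ≁ q since Rem) gives q ~ e.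
 So insert e K is an (m+2)-clique (`clique_insert`): contradiction with `h.free`.  So e ∈ K.
-/

set_option autoImplicit false
set_option linter.unusedSectionVars false
set_option linter.unusedVariables false

namespace Pool.Agent.H92.TK

open SimpleGraph Finset Pool.Agent.H92.TD Pool.Agent.H92.TP Pool.Agent.H92.TF

theorem fk_claw {V : Type} [Fintype V] {G : SimpleGraph V} {m : ℕ} (h : MinCE G m) (hp : PrimeG G)
    (hf : ForkK1free G) : Clawfree G := by
  classical
  intro v0 a b c hva hvb hvc hab hbc hac nab nbc nac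
  obtain ⟨P, hP⟩ : ∃ P : Finset (V × Finset V), P = univ.filter (fun p : V × Finset V =>
      (∀ z ∈ p.2, G.Adj p.1 z) ∧ ∀ z ∈ p.2, ∀ z' ∈ p.2, ¬ G.Adj z z') := ⟨_, rfl⟩
  have hmem : ∀ (w : V) (Z : Finset V), (w, Z) ∈ P ↔
      (∀ z ∈ Z, G.Adj w z) ∧ ∀ z ∈ Z, ∀ z' ∈ Z, ¬ G.Adj z z' := by
    intro w Z
    rw [hP, mem_filter]
    exact ⟨fun h => h.2, fun h => ⟨mem_univ _, h⟩⟩
  have hir : ∀ x : V, ¬ G.Adj x x := fun x => G.loopless.irrefl x
  have h0 : (v0, ({a, b, c} : Finset V)) ∈ P := by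
    rw [hmem]
    constructor
    · intro z hz
      simp only [mem_insert, mem_singleton] at hz
      rcases hz with rfl | rfl | rfl
      · exact hva
      · exact hvb
      · exact hvc
    · intro z hz z' hz'
      simp only [mem_insert, mem_singleton] at hz hz'
      rcases hz with rfl | rfl | rfl <;> rcases hz' with rfl | rfl | rfl
      · exact hir _
      · exact nab
      · exact nac
      · exact fun e => nab e.symm
      · exact hir _
      · exact nbc
      · exact fun e => nac e.symm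
      · exact fun e => nbc e.symm
      · exact hir _
  obtain ⟨⟨v, Y⟩, hvY, hmax0⟩ := Finset.exists_max_image P (fun p => p.2.card) ⟨_, h0⟩
  obtain ⟨hY, hYs⟩ := (hmem v Y).1 hvY
  have h3 : 3 ≤ Y.card := by
    have h4 := hmax0 _ h0
    have h5 : ({a, b, c} : Finset V).card = 3 := Finset.card_eq_three.2 ⟨a, b, c, hab, hac, hbc, rfl⟩
    simp only at h4
    rw [h5] at h4
    exact h4
  have hmax : ∀ (w : V) (Z : Finset V), (∀ z ∈ Z, G.Adj w z) → (∀ z ∈ Z, ∀ z' ∈ Z, ¬ G.Adj z z') →
      Z.card ≤ Y.card := fun w Z h1 h2 => hmax0 (w, Z) ((hmem w Z).2 ⟨h1, h2⟩)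
  have hYne : Y.Nonempty := by
    rw [← Finset.card_pos]
    omega
  have mkW : ∀ (K : Finset V), Rem G K v → ∀ k ∈ K, (∀ y ∈ Y, ¬ G.Adj y k) → WW G v Y k :=
    fun K hR k hk hkY => ⟨fun e => hR.1 (e ▸ hk), hR.2 k hk, hkY⟩
  rcases w_dich hp hf hY hYs h3 hmax with hs | hcl
  · refine sl h (v := v) (fun x => WW G v Y x ∧ ¬ BadFor G m v x) ?_ ?_ ?_
    · intro x hx
      exact ⟨hx.1.2.1, hx.2⟩
    · intro x y hx hy
      exact hs x y hx.1 hy.1
    · intro K hK hR
      obtain ⟨k, hkK, hkb, hkY⟩ := q2 h hYne hY hYs hK hR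
      exact ⟨k, hkK, mkW K hR k hkK hkY, hkb⟩
  · obtain ⟨K0, hK0, hR0⟩ := exists_remote h v
    obtain ⟨e, heK0, heb, heY⟩ := q2 h hYne hY hYs hK0 hR0
    have heW : WW G v Y e := mkW K0 hR0 e heK0 heY
    refine sl h (v := v) (fun x => x = e) ?_ ?_ ?_
    · intro x hx
      rw [hx]
      exact ⟨heW.2.1, heb⟩
    · intro x y hx hy
      rw [hx, hy]
      exact hir _
    · intro K hK hR
      refine ⟨e, ?_, rfl⟩
      by_contra heK
      obtain ⟨k, hkK, _, hkY⟩ := q2 h hYne hY hYs hK hR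
      have hkW : WW G v Y k := mkW K hR k hkK hkY
      have hke : k ≠ e := fun e' => heK (e' ▸ hkK)
      refine h.free _ (clique_insert hK (v := e) ?_)
      intro q hq
      by_cases hqW : WW G v Y q
      · exact hcl e q heW hqW (fun e' => heK (e' ▸ hq))
      · have hqk : q ≠ k := fun e' => hqW (e' ▸ hkW)
        have hqv : q ≠ v := fun e' => hR.1 (e' ▸ hq)
        exact (str_M hf hY hYs h3 hmax hqv (hR.2 q hq) hqW hkW heW (hcl k e hkW heW hke)
          (hK.1 hq hkK hqk)).symm

end Pool.Agent.H92.TK
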